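import Mathlib
import Pool.Agent.N291.GC.Defs
import Pool.Agent.N291.GC.Lim
import Pool.Agent.N291.GC.Rep

set_option autoImplicit false

open MeasureTheory Filter Topology Set
open Pool.Agent.Helper311.GB Pool.Agent.N291.GC

namespace Pool.Agent.Results.MP_eb85ab_an.LocUnif

/-- Let `Ω ⊆ ℂⁿ` be a bounded hyperconvex open set containing `0`, and let `G ε` be the
pluricomplex Green function of `Ω` with poles at `a ε 1, …, a ε N`, where every pole tends to `0`
along the filter `l` (for instance `l = 𝓝[>] 0`). If `G ε → g` in `L¹_loc(Ω)`, then the convergence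
is locally uniform on `Ω \ {0}`: `g` is almost everywhere equal on `Ω \ {0}` to a continuous
function `g'` to which `G ε` converges uniformly on every compact subset of `Ω \ {0}`, and every
plurisubharmonic representative of `g` is equal to `g'` at every point of `Ω \ {0}`. -/
theorem result {n N : ℕ} (hN : 0 < N) (Ω : Set (EuclideanSpace ℂ (Fin n))) (hΩ : IsOpen Ω)
    (hb : Bornology.IsBounded Ω) (hH : Hyperconvex Ω) (h0 : (0 : EuclideanSpace ℂ (Fin n)) ∈ Ω)
    {ι : Type} (l : Filter ι) [l.NeBot] (a : ι → Fin N → EuclideanSpace ℂ (Fin n))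
    (ha : ∀ j, Tendsto (fun ε => a ε j) l (𝓝 0)) (g : EuclideanSpace ℂ (Fin n) → ℝ)
    (hg : L1locTendsto Ω (fun ε => greenS Ω (range (a ε))) l g) :
    ∃ g' : EuclideanSpace ℂ (Fin n) → ℝ, ContinuousOn g' (Ω \ {0}) ∧
      (∀ᵐ z, z ∈ Ω \ {(0 : EuclideanSpace ℂ (Fin n))} → g z = g' z) ∧
      (∀ K : Set (EuclideanSpace ℂ (Fin n)), IsCompact K → K ⊆ Ω \ {0} → ∀ δ : ℝ, 0 < δ →
        ∀ᶠ ε in l, ∀ z ∈ K, ((g' z - δ : ℝ) : EReal) < greenS Ω (range (a ε)) z ∧
          greenS Ω (range (a ε)) z < ((g' z + δ : ℝ) : EReal)) ∧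
      ∀ u : EuclideanSpace ℂ (Fin n) → EReal, PSH Ω u →
        (∀ᵐ z, z ∈ Ω → u z = ((g z : ℝ) : EReal)) →
          ∀ z ∈ Ω \ {(0 : EuclideanSpace ℂ (Fin n))}, u z = ((g' z : ℝ) : EReal) := by
  obtain ⟨g', h1, h2, h3⟩ := limit_exists hΩ hb h0 hN hH ha hg
  refine ⟨g', h1, h2, h3, ?_⟩
  intro u hu hug
  refine psh_eq_of_ae (hΩ.sdiff isClosed_singleton) (psh_mono hu sdiff_subset) h1 ?_
  filter_upwards [h2, hug] with z hz1 hz2 hz3
  rw [hz2 hz3.1, hz1 hz3]

end Pool.Agent.Results.MP_eb85ab_an.LocUnif
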